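import Pool.Agent.H.MP_72f11f_al.Main

set_option autoImplicit false

namespace Pool.Agent.Results.MP_72f11f_al.Counter

open MvPolynomial

/-- the variables `y_{ij}`, `i ≠ j` -/
abbrev Y := {p : ℕ × ℕ // p.1 ≠ p.2}

/-- an injective map `σ` of the indices acts on the variables by `y_{ij} ↦ y_{σ i, σ j}` -/
def act (σ : ℕ → ℕ) (h : Function.Injective σ) (y : Y) : Y := ⟨(σ y.1.1, σ y.1.2), h.ne y.2⟩

/-- the algebra map `y_{ij} ↦ f(x_i, x_j)` -/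
noncomputable def phi (f : MvPolynomial (Fin 2) ℂ) : MvPolynomial Y ℂ →ₐ[ℂ] MvPolynomial ℕ ℂ :=
  aeval fun y => aeval ![X y.1.1, X y.1.2] f

theorem result :
    ∃ f : MvPolynomial (Fin 2) ℂ, f = X 0 ^ 2 * X 1 ∧
      (∃ F : Set (MvPolynomial Y ℂ), F.Finite ∧ F ⊆ RingHom.ker (phi f) ∧
        Ideal.span {g | ∃ σ : Equiv.Perm ℕ, {i | σ i ≠ i}.Finite ∧
          ∃ p ∈ F, g = rename (act σ σ.injective) p} = RingHom.ker (phi f)) ∧
      ∃ m : MonomialOrder.{0, 0} Y,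
        (∀ (ρ : ℕ → ℕ) (h : StrictMono ρ) (a b : Y →₀ ℕ), m.toSyn a ≤ m.toSyn b →
          m.toSyn (a.mapDomain (act ρ h.injective)) ≤ m.toSyn (b.mapDomain (act ρ h.injective))) ∧
        ¬ ∃ G : Set (MvPolynomial Y ℂ), G.Finite ∧ G ⊆ RingHom.ker (phi f) ∧
          Ideal.span {q : MvPolynomial Y ℂ | ∃ (ρ : ℕ → ℕ) (h : StrictMono ρ), ∃ g ∈ G, g ≠ 0 ∧
              q = monomial (m.degree (rename (act ρ h.injective) g)) 1} =
            Ideal.span {q : MvPolynomial Y ℂ | ∃ g ∈ RingHom.ker (phi f), g ≠ 0 ∧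
              q = monomial (m.degree g) 1} :=
  ⟨_, rfl, Pool.Agent.H.MP_72f11f_al.fg, Pool.Agent.H.MP_72f11f_al.mo,
    Pool.Agent.H.MP_72f11f_al.mo_inc, Pool.Agent.H.MP_72f11f_al.no_egb⟩

end Pool.Agent.Results.MP_72f11f_al.Counter
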